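import Pool.Agent.R253.HQ.Main

/-!
# MP_2949c4_an: `I + T` hypercyclic, `f(T)` not, for the entire function `f = exp`
-/

open Filter Topology

namespace Pool.Agent.Results.MP_2949c4_an.ExpNotHypercyclic

/-- `S` is hypercyclic: some orbit `{S ^ n x : n ≥ 0}` is dense. -/
def Hypercyclic {X : Type*} [NormedAddCommGroup X] [NormedSpace ℂ X] (S : X →L[ℂ] X) : Prop :=
  ∃ x : X, Dense (Set.range fun n : ℕ => (S ^ n) x)

/-- `T` is quasinilpotent: `‖T ^ n‖ ^ (1 / n) → 0`. -/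
def Quasinilpotent {X : Type*} [NormedAddCommGroup X] [NormedSpace ℂ X] (T : X →L[ℂ] X) : Prop :=
  Tendsto (fun n : ℕ => ‖T ^ n‖ ^ (1 / (n : ℝ))) atTop (𝓝 0)

/-- There are an entire function `f(z) = ∑ aₙ zⁿ` with `a₀ = a₁ = 1` (namely `f = exp`), a complex
Banach space `X` and a quasinilpotent `T` such that `I + T` is hypercyclic and
`f(T) = ∑ aₙ Tⁿ` (the series converges in operator norm) is not hypercyclic. -/
theorem result :
    ∃ (f : ℂ → ℂ) (a : ℕ → ℂ), (∀ z : ℂ, HasSum (fun n => a n * z ^ n) (f z)) ∧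
      f = Complex.exp ∧ a 0 = 1 ∧ a 1 = 1 ∧
      ∃ (X : Type) (_ : NormedAddCommGroup X) (_ : NormedSpace ℂ X) (_ : CompleteSpace X)
        (T fT : X →L[ℂ] X), Quasinilpotent T ∧ HasSum (fun n => a n • T ^ n) fT ∧
        Hypercyclic (1 + T) ∧ ¬ Hypercyclic fT := by
  obtain ⟨X, i1, i2, i3, T, h1, h2, h3⟩ := R253.HQ.main_complex
  refine ⟨Complex.exp, fun n => ((n.factorial : ℂ))⁻¹, ?_, rfl, ?_, ?_,
    X, i1, i2, i3, T, NormedSpace.exp T, h1, ?_, h2, h3⟩
  · intro z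
    rw [Complex.exp_eq_exp_ℂ]
    have := NormedSpace.exp_series_hasSum_exp' (𝕂 := ℂ) z
    simpa only [smul_eq_mul] using this
  · simp
  · simp
  · exact NormedSpace.exp_series_hasSum_exp' (𝕂 := ℂ) T

end Pool.Agent.Results.MP_2949c4_an.ExpNotHypercyclic
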